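import Mathlib
import Pool.Agent.Run7.h801.CogData

/-!
# A planar triangle-free graph with cograph chromatic number three

`H` is the following planar triangle-free graph with root `x`.  It has four blocks
`j = 0,1,2,3`; the block `j` consists of a vertex `y_j`, three common neighbours
`w_1, w_2, w_3` of `x` and `y_j`, and a path `z_1 z_2 z_3 z_4` inside the face
`x w_1 y_j w_2` with `w_1 ~ z_1, z_3` and `w_2 ~ z_2, z_4`.  Moreover
`y_0 y_1 y_2 y_3` is a path.  In every partition of `H` into two cographs the root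
`x` has a neighbour in its own part: otherwise all the `w`'s are in the other part;
if `y_j` is in the other part too, then no `z` can be in the other part
(path `z w y_j w_3`), so that `z_1 z_2 z_3 z_4` is an induced path in the part of `x`;
hence all `y_j` are in the part of `x`, and `y_0 y_1 y_2 y_3` is an induced path there.
Now take a five-cycle and a copy of `H` at each of its vertices.  One edge of the
five-cycle has both ends in the same part, and with the two neighbours found in the
copies of `H` this gives an induced path on four vertices.  The graph has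
`165` vertices; the list below gives its `280` edges together with integer coordinates
of a straight-line plane drawing.
-/

namespace Pool.Agent.Results.MP_b5aa49_co.CographThree

open Pool.Agent.Run7.h801.CogData

/-- A graph is a cograph if it has no induced path on four vertices. -/
def IsCograph {V : Type*} (G : SimpleGraph V) : Prop :=
  IsEmpty (SimpleGraph.pathGraph 4 ↪g G)

/-- `V(G)` can be partitioned into `k` (possibly empty) sets each inducing a cograph. -/
def HasCographPartition {V : Type*} (G : SimpleGraph V) (k : ℕ) : Prop :=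
  ∃ f : V → Fin k, ∀ i : Fin k, IsCograph (G.induce {v | f v = i})

/-- The `c`-chromatic number. -/
noncomputable def cChromatic {V : Type*} (G : SimpleGraph V) : ℕ :=
  sInf {k : ℕ | HasCographPartition G k}

/-- `p` places the vertices at distinct points of the plane so that the straight segments
drawn for the edges contain no other vertices, and two different edges meet at most in a
common endvertex. -/
structure IsPlaneDrawing {V : Type*} (G : SimpleGraph V) (p : V → ℝ × ℝ) : Prop where
  inj : Function.Injective p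
  vertex : ∀ a b c : V, G.Adj a b → p c ∈ segment ℝ (p a) (p b) → c = a ∨ c = b
  edges : ∀ a b c d : V, G.Adj a b → G.Adj c d → s(a, b) ≠ s(c, d) →
    ∀ q : ℝ × ℝ, q ∈ segment ℝ (p a) (p b) → q ∈ segment ℝ (p c) (p d) →
      ∃ v : V, (v = a ∨ v = b) ∧ (v = c ∨ v = d) ∧ q = p v

/-- A graph is planar if it has a straight-line plane drawing. -/
def IsPlanar {V : Type*} (G : SimpleGraph V) : Prop :=
  ∃ p : V → ℝ × ℝ, IsPlaneDrawing G p

/-- The graph. -/
def G : SimpleGraph (Fin 165) where
  Adj a b := adjB a b = true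
  symm := by
    constructor
    intro a b h
    rw [adjB_comm]; exact h
  loopless := by
    constructor
    intro a h
    rw [adjB_self] at h
    exact absurd h (by decide)

theorem adj_iff (a b : Fin 165) : G.Adj a b ↔ adjB a b = true := Iff.rfl

noncomputable def pos (v : Fin 165) : ℝ × ℝ := ((X v : ℝ), (Y v : ℝ))

theorem pos_inj : Function.Injective pos := by
  intro a b h
  have h1 : (X a : ℝ) = (X b : ℝ) := congrArg Prod.fst h
  have h2 : (Y a : ℝ) = (Y b : ℝ) := congrArg Prod.snd h
  have h3 : X a = X b := by exact_mod_cast h1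
  have h4 : Y a = Y b := by exact_mod_cast h2
  have h5 := List.all_eq_true.1 (List.all_eq_true.1 injB a.val (List.mem_range.2 a.2)) b.val
    (List.mem_range.2 b.2)
  rw [Bool.or_eq_true, nb_true, Bool.not_eq_true', Bool.and_eq_false_iff, nb_false, nb_false] at h5
  rcases h5 with h5 | h5 | h5
  · exact Fin.ext h5
  · exact absurd h3 h5
  · exact absurd h4 h5

theorem exists_nbr (a : Fin 165) : ∃ b : Fin 165, G.Adj a b := by
  have h := List.all_eq_true.1 nbrB a.val (List.mem_range.2 a.2)
  rw [List.any_eq_true] at h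
  obtain ⟨e, he, h⟩ := h
  rw [Bool.or_eq_true, nb_true, nb_true] at h
  rcases h with h | h
  · have hadj : adjB a.val e.2.1 = true := (adjB_iff _ _).2 ⟨e, he, Or.inl ⟨h, rfl⟩⟩
    exact ⟨⟨e.2.1, (adjB_lt hadj).2⟩, hadj⟩
  · have hadj : adjB a.val e.1 = true := (adjB_iff _ _).2 ⟨e, he, Or.inr ⟨rfl, h⟩⟩
    exact ⟨⟨e.1, (adjB_lt hadj).2⟩, hadj⟩

theorem edges_fin (a b c d : Fin 165) (hab : G.Adj a b) (hcd : G.Adj c d)
    (hne : s(a, b) ≠ s(c, d)) (q : ℝ × ℝ) (h1 : q ∈ segment ℝ (pos a) (pos b))
    (h2 : q ∈ segment ℝ (pos c) (pos d)) :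
    ∃ v : Fin 165, (v = a ∨ v = b) ∧ (v = c ∨ v = d) ∧ q = pos v := by
  have hne1 : ¬ (a.val = c.val ∧ b.val = d.val) := by
    rintro ⟨h, h'⟩
    apply hne
    rw [Fin.ext h, Fin.ext h']
  have hne2 : ¬ (a.val = d.val ∧ b.val = c.val) := by
    rintro ⟨h, h'⟩
    apply hne
    rw [Fin.ext h, Fin.ext h', Sym2.eq_swap]
  obtain ⟨v, h3, h4, h5⟩ := edges_nat hab hcd hne1 hne2 q h1 h2
  have hv : v < 165 := by
    rcases h3 with rfl | rfl
    · exact a.2
    · exact b.2
  refine ⟨⟨v, hv⟩, ?_, ?_, h5⟩
  · rcases h3 with h3 | h3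
    · exact Or.inl (Fin.ext h3)
    · exact Or.inr (Fin.ext h3)
  · rcases h4 with h4 | h4
    · exact Or.inl (Fin.ext h4)
    · exact Or.inr (Fin.ext h4)

theorem planar : IsPlanar G := by
  refine ⟨pos, pos_inj, ?_, ?_⟩
  · intro a b c hab hc
    obtain ⟨d, hd⟩ := exists_nbr c
    by_cases hne : s(a, b) = s(c, d)
    · have h : c ∈ s(a, b) := by rw [hne]; exact Sym2.mem_mk_left c d
      exact Sym2.mem_iff.1 h
    · obtain ⟨v, h3, -, h5⟩ := edges_fin a b c d hab hd hne (pos c) hc (left_mem_segment ℝ _ _)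
      rw [pos_inj h5]
      exact h3
  · intro a b c d hab hcd hne q h1 h2
    exact edges_fin a b c d hab hcd hne q h1 h2

theorem cliqueFree : G.CliqueFree 3 := by
  intro s hs
  rw [SimpleGraph.is3Clique_iff] at hs
  obtain ⟨a, b, c, hab, hac, hbc, -⟩ := hs
  have := no_triangle hab hac
  rw [adj_iff, this] at hbc
  exact absurd hbc (by decide)

theorem C_lt (n : Fin 165) : C n < 3 := by
  have := List.all_eq_true.1 colLt n.val (List.mem_range.2 n.2)
  rwa [Nat.blt_eq] at this

theorem three : HasCographPartition G 3 := by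
  refine ⟨fun v => ⟨C v, C_lt v⟩, ?_⟩
  intro i
  constructor
  intro φ
  have h : (SimpleGraph.pathGraph 4).Adj 0 1 := by
    rw [SimpleGraph.pathGraph_adj]; left; rfl
  have h1 := (φ.map_rel_iff).2 h
  have h2 : G.Adj (φ 0).1 (φ 1).1 := h1
  have h3 := C_ne h2
  apply h3
  have e0 : (⟨C (φ 0).1, C_lt (φ 0).1⟩ : Fin 3) = i := (φ 0).2
  have e1 : (⟨C (φ 1).1, C_lt (φ 1).1⟩ : Fin 3) = i := (φ 1).2
  have := e0.trans e1.symm
  exact congrArg Fin.val this


/-! ### Two parts are not enough -/

theorem embP4 {V : Type*} (G' : SimpleGraph V) (a b c d : V) (h1 : G'.Adj a b) (h2 : G'.Adj b c)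
    (h3 : G'.Adj c d) (n1 : ¬ G'.Adj a c) (n2 : ¬ G'.Adj a d) (n3 : ¬ G'.Adj b d) :
    Nonempty (SimpleGraph.pathGraph 4 ↪g G') := by
  have hab : a ≠ b := G'.ne_of_adj h1
  have hbc : b ≠ c := G'.ne_of_adj h2
  have hcd : c ≠ d := G'.ne_of_adj h3
  have hac : a ≠ c := by rintro rfl; exact n2 h3
  have had : a ≠ d := by rintro rfl; exact n3 h1.symm
  have hbd : b ≠ d := by rintro rfl; exact n2 h1
  have h1' := h1.symm
  have h2' := h2.symm
  have h3' := h3.symm
  have n1' : ¬ G'.Adj c a := fun h => n1 h.symm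
  have n2' : ¬ G'.Adj d a := fun h => n2 h.symm
  have n3' : ¬ G'.Adj d b := fun h => n3 h.symm
  refine ⟨⟨⟨![a, b, c, d], ?_⟩, ?_⟩⟩
  · intro i j h
    fin_cases i <;> fin_cases j <;> simp_all
  · intro i j
    change G'.Adj (![a, b, c, d] i) (![a, b, c, d] j) ↔ _
    rw [SimpleGraph.pathGraph_adj]
    fin_cases i <;> fin_cases j <;> simp [h1, h2, h3, h1', h2', h3', n1, n2, n3, n1', n2', n3']

theorem not_two (k : ℕ) (hk : k ≤ 2) : ¬ HasCographPartition G k := by
  rintro ⟨f, hf⟩
  set g : ℕ → ℕ := fun n => if h : n < 165 then (f ⟨n, h⟩).val else 0 with hgdef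
  have hk0 : 0 < k := Nat.pos_of_ne_zero (by
    rintro rfl
    exact (f 0).elim0)
  apply core g
  · intro n
    simp only [hgdef]
    split_ifs with h
    · exact lt_of_lt_of_le (f ⟨n, h⟩).2 hk
    · norm_num
  · intro a b c d hab hbc hcd hac had hbd hgg
    have ha := (adjB_lt hab).1
    have hb := (adjB_lt hab).2
    have hc := (adjB_lt hbc).2
    have hd := (adjB_lt hcd).2
    simp only [hgdef, ha, hb, hc, hd, dif_pos] at hgg
    obtain ⟨e1, e2, e3⟩ := hgg
    have e1' := Fin.ext e1
    have e2' := Fin.ext e2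
    have e3' := Fin.ext e3
    have hcg := hf (f ⟨a, ha⟩)
    obtain ⟨φ⟩ := embP4 (G.induce {v | f v = f ⟨a, ha⟩}) ⟨⟨a, ha⟩, rfl⟩ ⟨⟨b, hb⟩, e1'.symm⟩
      ⟨⟨c, hc⟩, (e1'.trans e2').symm⟩ ⟨⟨d, hd⟩, ((e1'.trans e2').trans e3').symm⟩ hab hbc hcd
      (by intro h; have h' : adjB a c = true := h; rw [hac] at h'; exact absurd h' (by decide))
      (by intro h; have h' : adjB a d = true := h; rw [had] at h'; exact absurd h' (by decide))
      (by intro h; have h' : adjB b d = true := h; rw [hbd] at h'; exact absurd h' (by decide))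
    exact hcg.false φ

theorem cChromatic_G : cChromatic G = 3 := by
  apply le_antisymm
  · exact Nat.sInf_le three
  · by_contra h
    push Not at h
    have hne : {k : ℕ | HasCographPartition G k}.Nonempty := ⟨3, three⟩
    exact not_two _ (by unfold cChromatic at h; omega) (Nat.sInf_mem hne)

/-- There is a finite planar triangle-free graph with `c`-chromatic number three. -/
theorem result : ∃ (n : ℕ) (H : SimpleGraph (Fin n)),
    IsPlanar H ∧ H.CliqueFree 3 ∧ cChromatic H = 3 :=
  ⟨165, G, planar, cliqueFree, cChromatic_G⟩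


end Pool.Agent.Results.MP_b5aa49_co.CographThree
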